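import Mathlib
import Pool.Agent.H47.NAssoc

namespace Pool.Agent.Results.MP_bbc03c_al.RightAlt

/-- the center: elements of the associative center commuting with everything -/
def cen (R : Type) [NonAssocRing R] : Set R :=
  {x | (∀ a b : R, x * a * b = x * (a * b) ∧ a * x * b = a * (x * b) ∧ a * b * x = a * (b * x)) ∧
    ∀ a : R, x * a = a * x}

open Pool.Agent.H47.NAssoc in
theorem result : ∃ (R : Type) (_ : NonAssocRing R),
    (∀ a b : R, a * b * b = a * (b * b)) ∧ ¬ (∀ a b : R, a * a * b = a * (a * b)) ∧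
    ∀ r : R, r ≠ 0 → ∃ x ∈ cen R, x * r ∈ cen R ∧ x * r ≠ 0 := by
  refine ⟨B, inferInstance, fun a b => ?_, fun h => ?_, fun r hr => ?_⟩
  · ext <;> simp only [B.mul_def] <;> ring
  · simpa [B.mul_def] using h ⟨0, 1, 0, 0, 0, 0⟩ ⟨0, 0, 1, 0, 0, 0⟩
  · have key : ∀ x : B, x.c = 0 → x.a = 0 → x.b = 0 → (x * r).w ≠ 0 →
        ∃ x ∈ cen B, x * r ∈ cen B ∧ x * r ≠ 0 := fun x h0 h1 h2 h =>
      ⟨x, B.cen x h1 h2, B.cen _ (by simp [B.mul_def, h0, h1]) (by simp [B.mul_def, h0, h2]),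
        fun h' => h (by rw [h']; rfl)⟩
    by_cases h0 : r.c = 0
    · by_cases h1 : r.a = 0
      · by_cases h2 : r.b = 0
        · exact ⟨1, B.cen 1 rfl rfl, by rw [one_mul]; exact B.cen r h1 h2, by rwa [one_mul]⟩
        · exact key ⟨0, 0, 0, 1, 0, 0⟩ rfl rfl rfl (by simpa [B.mul_def, h0] using h2)
      · exact key ⟨0, 0, 0, 0, 1, 0⟩ rfl rfl rfl (by simpa [B.mul_def, h0] using h1)
    · exact key ⟨0, 0, 0, 0, 0, 1⟩ rfl rfl rfl (by simpa [B.mul_def] using h0)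

end Pool.Agent.Results.MP_bbc03c_al.RightAlt
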